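import Pool.Agent.H424.QR.Main

/-! Almost all primes. -/

set_option autoImplicit false

namespace Pool.Agent.H424.QR

open Filter Topology Finset
open Pool.Agent.TH949.RES (SphericalCuspForm)

variable {n : ℕ} {α : Nat.Primes → Fin n → ℂ} {μ : Fin n → ℂ}

theorem tsum_fin (x : ℝ) (f : Nat.Primes → ℝ) :
    (∑' p : Nat.Primes, if ((p : ℕ) : ℝ) ≤ x then f p else 0) = ∑ p ∈ (prim_fin x).toFinset, f p := by
  rw [tsum_eq_sum (s := (prim_fin x).toFinset)]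
  · refine Finset.sum_congr rfl fun p hp => ?_
    rw [Set.Finite.mem_toFinset] at hp
    exact if_pos hp
  · intro p hp
    rw [Set.Finite.mem_toFinset] at hp
    exact if_neg hp

/-- the number of exceptional primes -/
theorem count {ϑ x S : ℝ} (hϑ : ϑ ≤ 1 / 2) (hx : 2 ≤ x)
    (hS : ∑ p ∈ (prim_fin x).toFinset, ((p : ℕ) : ℝ) ^ (-(((n / 2 : ℕ) : ℝ) * (1 - 2 * theta α p))) ≤ S) :
    (({p : Nat.Primes | ((p : ℕ) : ℝ) ≤ x ∧ ϑ ≤ theta α p}.ncard : ℕ) : ℝ) ≤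
      x ^ (((n / 2 : ℕ) : ℝ) * (1 - 2 * ϑ)) * S := by
  classical
  have hfin : {p : Nat.Primes | ((p : ℕ) : ℝ) ≤ x ∧ ϑ ≤ theta α p}.Finite := (prim_fin x).subset fun p hp => hp.1
  rw [Set.ncard_eq_toFinset_card _ hfin]
  have hx0 : 0 < x := by linarith
  have hβ : 0 ≤ ((n / 2 : ℕ) : ℝ) * (1 - 2 * ϑ) := mul_nonneg (Nat.cast_nonneg _) (by linarith)
  have h1 : (hfin.toFinset.card : ℝ) * x ^ (-(((n / 2 : ℕ) : ℝ) * (1 - 2 * ϑ))) ≤ S := by
    refine le_trans ?_ hS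
    rw [← nsmul_eq_mul, ← Finset.sum_const]
    refine (Finset.sum_le_sum (g := fun p : Nat.Primes =>
      ((p : ℕ) : ℝ) ^ (-(((n / 2 : ℕ) : ℝ) * (1 - 2 * theta α p)))) fun p hp => ?_).trans
      (Finset.sum_le_sum_of_subset_of_nonneg (fun p hp => ?_) fun p _ _ => by positivity)
    · rw [Set.Finite.mem_toFinset] at hp
      have hp1 : (1 : ℝ) < ((p : ℕ) : ℝ) := by exact_mod_cast p.2.one_lt
      have h2 : ((p : ℕ) : ℝ) ≤ x := hp.1
      have h3 : ϑ ≤ theta α p := hp.2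
      calc x ^ (-(((n / 2 : ℕ) : ℝ) * (1 - 2 * ϑ))) ≤ ((p : ℕ) : ℝ) ^ (-(((n / 2 : ℕ) : ℝ) * (1 - 2 * ϑ))) :=
            Real.rpow_le_rpow_of_nonpos (by linarith) h2 (by linarith)
        _ ≤ _ := by
            refine Real.rpow_le_rpow_of_exponent_le hp1.le ?_
            have h4 : (0 : ℝ) ≤ ((n / 2 : ℕ) : ℝ) := Nat.cast_nonneg _
            nlinarith
    · rw [Set.Finite.mem_toFinset] at hp ⊢
      exact hp.1
  rw [Real.rpow_neg hx0.le] at h1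
  have h2 : 0 < x ^ (((n / 2 : ℕ) : ℝ) * (1 - 2 * ϑ)) := Real.rpow_pos_of_pos hx0 _
  rw [← div_eq_mul_inv, div_le_iff₀ h2] at h1
  linarith

/-- the growth lemma -/
theorem growth {A β κ ε : ℝ} (hA : 0 < A) (hβ1 : β < 1) (hκ : 1 / (1 - β) < κ) (hε : 0 < ε) :
    ∃ B : ℝ, 0 < B ∧ ∀ L x : ℝ, Real.log 2 ≤ L → B * L ^ κ ≤ x → 2 ≤ x ∧
      x ^ β * (A * (L + Real.log (Real.log (3 * x)))) ≤ ε * (x / Real.log x) := by
  have hκ0 : 0 < κ := by
    have : 0 < 1 / (1 - β) := by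
      have : 0 < 1 - β := by linarith
      positivity
    linarith
  have hξ : 0 < 1 - β - 1 / κ := by
    have h1 : 0 < 1 - β := by linarith
    have h2 : 1 / κ < 1 - β := by
      rw [div_lt_iff₀ hκ0]
      rw [div_lt_iff₀ h1] at hκ
      linarith
    linarith
  set ξ : ℝ := 1 - β - 1 / κ with hξd
  have hl1 : ∀ᶠ x : ℝ in atTop, Real.log x ≤ ε / (2 * A) * x ^ ξ := by
    have := (isLittleO_log_rpow_atTop hξ).def (c := ε / (2 * A)) (by positivity)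
    filter_upwards [this, eventually_ge_atTop 1] with x h1 h2
    rw [Real.norm_of_nonneg (Real.log_nonneg h2), Real.norm_of_nonneg (by positivity)] at h1
    exact h1
  have hl2 : ∀ᶠ x : ℝ in atTop, Real.log x ≤ 1 / 2 * x ^ (1 / κ) := by
    have := (isLittleO_log_rpow_atTop (show 0 < 1 / κ by positivity)).def (c := 1 / 2) (by positivity)
    filter_upwards [this, eventually_ge_atTop 1] with x h1 h2
    rw [Real.norm_of_nonneg (Real.log_nonneg h2), Real.norm_of_nonneg (by positivity)] at h1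
    exact h1
  have hl3 : ∀ᶠ x : ℝ in atTop, Real.log 3 ≤ 1 / 2 * x ^ (1 / κ) := by
    have := tendsto_rpow_atTop (show 0 < 1 / κ by positivity)
    filter_upwards [this.eventually_ge_atTop (2 * Real.log 3)] with x hx
    linarith
  obtain ⟨x0, hx0⟩ := eventually_atTop.1 (hl1.and (hl2.and hl3))
  set x1 : ℝ := max x0 3 with hx1
  have hl : 0 < Real.log 2 := Real.log_pos (by norm_num)
  refine ⟨max 1 (x1 / (Real.log 2) ^ κ), by positivity, fun L x hL hx => ?_⟩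
  have hL0 : 0 < L := by linarith
  have hB1 : L ^ κ ≤ x := by
    refine le_trans ?_ hx
    have : 0 < L ^ κ := Real.rpow_pos_of_pos hL0 _
    calc L ^ κ = 1 * L ^ κ := (one_mul _).symm
      _ ≤ _ := mul_le_mul_of_nonneg_right (le_max_left _ _) this.le
  have hB2 : x1 ≤ x := by
    refine le_trans ?_ hx
    have h1 : 0 < (Real.log 2) ^ κ := Real.rpow_pos_of_pos hl _
    have h2 : (Real.log 2) ^ κ ≤ L ^ κ := Real.rpow_le_rpow hl.le hL hκ0.le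
    have h3 : 0 ≤ x1 / (Real.log 2) ^ κ := div_nonneg ((by norm_num : (0 : ℝ) ≤ 3).trans (le_max_right _ _)) h1.le
    calc x1 = x1 / (Real.log 2) ^ κ * (Real.log 2) ^ κ := by field_simp
      _ ≤ x1 / (Real.log 2) ^ κ * L ^ κ := mul_le_mul_of_nonneg_left h2 h3
      _ ≤ _ := mul_le_mul_of_nonneg_right (le_max_right _ _) (Real.rpow_pos_of_pos hL0 _).le
  have hx3 : 3 ≤ x := (le_max_right _ _).trans hB2
  obtain ⟨g1, g2, g3⟩ := hx0 x ((le_max_left _ _).trans hB2)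
  refine ⟨by linarith, ?_⟩
  have hxp : 0 < x := by linarith
  have hlx : 0 < Real.log x := Real.log_pos (by linarith)
  have k1 : L ≤ x ^ (1 / κ) := by
    have h1 := Real.rpow_le_rpow (Real.rpow_pos_of_pos hL0 _).le hB1 (show 0 ≤ 1 / κ by positivity)
    rwa [← Real.rpow_mul hL0.le, mul_one_div_cancel hκ0.ne', Real.rpow_one] at h1
  have k2 : Real.log (Real.log (3 * x)) ≤ x ^ (1 / κ) := by
    have h1 : Real.log (3 * x) = Real.log 3 + Real.log x := Real.log_mul (by norm_num) hxp.ne'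
    have h2 : 0 < Real.log (3 * x) := Real.log_pos (by linarith)
    have h3 := Real.log_le_sub_one_of_pos h2
    linarith
  have k3 : x ^ β * (A * (L + Real.log (Real.log (3 * x)))) ≤ 2 * A * (x ^ β * x ^ (1 / κ)) := by
    have : x ^ β * (A * (L + Real.log (Real.log (3 * x)))) ≤ x ^ β * (A * (x ^ (1 / κ) + x ^ (1 / κ))) := by
      gcongr
    linarith
  refine k3.trans ?_
  rw [← mul_div_assoc, le_div_iff₀ hlx]
  calc 2 * A * (x ^ β * x ^ (1 / κ)) * Real.log x ≤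
      2 * A * (x ^ β * x ^ (1 / κ)) * (ε / (2 * A) * x ^ ξ) := by gcongr
    _ = ε * (x ^ β * x ^ (1 / κ) * x ^ ξ) := by field_simp
    _ = ε * x := by
        rw [← Real.rpow_add hxp, ← Real.rpow_add hxp]
        have : β + 1 / κ + ξ = 1 := by rw [hξd]; ring
        rw [this, Real.rpow_one]

/-- **The final form.** -/
theorem final {n : ℕ} (hn : 2 ≤ n) :
    (∃ A : ℝ, 0 < A ∧ ∀ (α : Nat.Primes → Fin n → ℂ) (μ : Fin n → ℂ), SphericalCuspForm α μ →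
      (∀ (p : Nat.Primes) i, ‖α p i‖ < ((p : ℕ) : ℝ) ^ (1 / 2 : ℝ)) → (∀ i, |(μ i).re| < 1 / 2) →
      ∀ x : ℝ, 2 ≤ x → (∑' p : Nat.Primes, if ((p : ℕ) : ℝ) ≤ x then
          ((p : ℕ) : ℝ) ^ (-(((n / 2 : ℕ) : ℝ) * (1 - 2 * theta α p))) else 0) ≤
        A * (Real.log (2 * ∏ i, ∏ j, (1 + ‖μ i - μ j‖)) + Real.log (Real.log (3 * x)))) ∧
    ∀ ϑ κ ε : ℝ, ϑ ≤ 1 / 2 → ((n / 2 : ℕ) : ℝ) * (1 - 2 * ϑ) < 1 → 1 / (1 - ((n / 2 : ℕ) : ℝ) * (1 - 2 * ϑ)) < κ →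
      0 < ε → ∃ B : ℝ, 0 < B ∧ ∀ (α : Nat.Primes → Fin n → ℂ) (μ : Fin n → ℂ), SphericalCuspForm α μ →
        (∀ (p : Nat.Primes) i, ‖α p i‖ < ((p : ℕ) : ℝ) ^ (1 / 2 : ℝ)) → (∀ i, |(μ i).re| < 1 / 2) →
        ∀ x : ℝ, B * Real.log (2 * ∏ i, ∏ j, (1 + ‖μ i - μ j‖)) ^ κ ≤ x →
          (({p : Nat.Primes | ((p : ℕ) : ℝ) ≤ x ∧ ϑ ≤ theta α p}.ncard : ℕ) : ℝ) ≤ ε * (x / Real.log x) := by
  obtain ⟨A, hA, h⟩ := main hn
  refine ⟨⟨A, hA, fun α μ h1 h2 h3 x hx => ?_⟩, fun ϑ κ ε hϑ hβ hκ hε => ?_⟩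
  · rw [tsum_fin x fun p => ((p : ℕ) : ℝ) ^ (-(((n / 2 : ℕ) : ℝ) * (1 - 2 * theta α p)))]
    exact h α μ h1 h2 h3 x hx
  · obtain ⟨B, hB, hB'⟩ := growth hA (β := ((n / 2 : ℕ) : ℝ) * (1 - 2 * ϑ)) hβ hκ hε
    refine ⟨B, hB, fun α μ h1 h2 h3 x hx => ?_⟩
    have hQ := one_le_Q μ
    obtain ⟨hx2, hx3⟩ := hB' (Real.log (2 * ∏ i, ∏ j, (1 + ‖μ i - μ j‖))) x
      (Real.log_le_log (by norm_num) (by linarith)) hx
    exact (count hϑ hx2 (h α μ h1 h2 h3 x hx2)).trans hx3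

end Pool.Agent.H424.QR
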