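import Pool.Agent.TH949.UL.PGL

/-! An upper bound for `L(σ, π × π~)`, `1 < σ ≤ 2`, uniform in the form. -/

set_option autoImplicit false

namespace Pool.Agent.H424.QR

open Filter Topology Complex
open Pool.Agent.W189.TP (DS PS LL LL_nonneg exp_LL rexp_LL norm_term DS_diff)
open Pool.Agent.TH949.LT (LData PK)
open Pool.Agent.TH949.RES
open Pool.Agent.TH949.UL

variable {n : ℕ} {α : Nat.Primes → Fin n → ℂ} {μ : Fin n → ℂ}

/-- `log L(σ, π × π~)` for real `σ` -/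
noncomputable def RL (α : Nat.Primes → Fin n → ℂ) (σ : ℝ) : ℝ :=
  ∑' x : Nat.Primes × ℕ, ‖∑ i, α x.1 i ^ (x.2 + 1)‖ ^ 2 / ((x.2 : ℝ) + 1) * (((x.1 : ℕ) : ℝ) ^ (-σ)) ^ (x.2 + 1)

theorem logL_real (α : Nat.Primes → Fin n → ℂ) (σ : ℝ) : logL α (σ : ℂ) = ((RL α σ : ℝ) : ℂ) := by
  unfold logL RL
  rw [Complex.ofReal_tsum]
  refine tsum_congr fun x => ?_
  rw [Complex.ofReal_mul, Complex.ofReal_pow, Complex.ofReal_cpow (by positivity)]
  push_cast
  rfl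

/-- the identity of `gdata` in the half plane `Re s > 1` -/
theorem gdata_ext (h : SphericalCuspForm α μ) {N : ℕ} {κ : Fin N → ℂ} {Q : ℝ} {G : ℂ → ℂ} (hG : LData N κ Q G)
    (hGe : ∀ s : ℂ, 5 / 2 ≤ s.re → G s = DQ s * cexp (DS (d1 (rs α)) LL s)) {s : ℂ} (hs : 1 < s.re) :
    G s = DQ s * cexp (DS (d1 (rs α)) LL s) := by
  have hopen : IsOpen {s : ℂ | 1 < s.re} := isOpen_lt continuous_const Complex.continuous_re
  have hDQ : Differentiable ℂ DQ := by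
    obtain ⟨CD, hCD⟩ := den_DQ
    exact hCD.diff
  have hd : DifferentiableOn ℂ (fun s => DQ s * cexp (DS (d1 (rs α)) LL s)) {s | 1 < s.re} :=
    hDQ.differentiableOn.mul ((DS_diff LL_nonneg fun t ht => summable_d1 h ht).cexp)
  have h1 : AnalyticOnNhd ℂ G {s | 1 < s.re} := hG.hF.differentiableOn.analyticOnNhd hopen
  have h2 : AnalyticOnNhd ℂ (fun s => DQ s * cexp (DS (d1 (rs α)) LL s)) {s | 1 < s.re} := hd.analyticOnNhd hopen
  have hconv : Convex ℝ {s : ℂ | 1 < s.re} := convex_halfSpace_re_gt 1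
  refine h1.eqOn_of_preconnected_of_eventuallyEq h2 hconv.isPreconnected (z₀ := 3)
    (by show 1 < (3 : ℂ).re; norm_num) ?_ hs
  have hopen3 : IsOpen {s : ℂ | 5 / 2 < s.re} := isOpen_lt continuous_const Complex.continuous_re
  filter_upwards [hopen3.mem_nhds (show (3 : ℂ) ∈ {s : ℂ | 5 / 2 < s.re} by
    show 5 / 2 < (3 : ℂ).re
    norm_num)] with s hs3
  exact hGe s (le_of_lt hs3)

theorem gammaR_lower : ∃ c : ℝ, 0 < c ∧ ∀ σ : ℝ, 1 ≤ σ → σ ≤ 2 → c ≤ ‖Gammaℝ (σ : ℂ)‖ := by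
  have hcont : ContinuousOn (fun σ : ℝ => ‖(Gammaℝ (σ : ℂ))⁻¹‖) (Set.Icc 1 2) := by
    refine Continuous.continuousOn ?_
    exact (Complex.differentiable_Gammaℝ_inv.continuous.comp Complex.continuous_ofReal).norm
  obtain ⟨C, hC⟩ := isCompact_Icc.exists_bound_of_continuousOn hcont
  have hC1 : 0 < |C| + 1 := by positivity
  refine ⟨(|C| + 1)⁻¹, by positivity, fun σ h1 h2 => ?_⟩
  have h3 := hC σ ⟨h1, h2⟩
  rw [norm_norm, norm_inv] at h3
  have hne : Gammaℝ (σ : ℂ) ≠ 0 := Complex.Gammaℝ_ne_zero_of_re_pos (by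
    rw [Complex.ofReal_re]
    linarith)
  have hpos : 0 < ‖Gammaℝ (σ : ℂ)‖ := norm_pos_iff.2 hne
  rw [inv_le_comm₀ hC1 hpos]
  linarith [le_abs_self C]

/-- **The edge of the critical strip**: `log L(σ, π × π~) ≤ log (1 / (σ - 1)) + 3 log C + K`. -/
theorem edge (hn : 2 ≤ n) : ∃ K : ℝ, 0 ≤ K ∧ ∀ (α : Nat.Primes → Fin n → ℂ) (μ : Fin n → ℂ), SphericalCuspForm α μ →
    (∀ (p : Nat.Primes) i, ‖α p i‖ < ((p : ℕ) : ℝ) ^ (1 / 2 : ℝ)) → (∀ i, |(μ i).re| < 1 / 2) →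
    ∀ σ : ℝ, 1 < σ → σ ≤ 2 →
      RL α σ ≤ Real.log (1 / (σ - 1)) + 3 * Real.log (∏ i, ∏ j, (1 + ‖μ i - μ j‖)) + K := by
  obtain ⟨CD, hCD⟩ := den_DQ
  obtain ⟨c0, hc0, hc⟩ := gammaR_lower
  have hw := summable_one (t := 3 / 2) (by norm_num)
  have hW : 0 ≤ ∑' x : PS ∅ × ℕ, Real.exp (-(3 / 2 * LL x)) := tsum_nonneg fun _ => (Real.exp_pos _).le
  set M : ℝ := Real.exp (((n : ℝ) ^ 2 + 1) * ∑' x : PS ∅ × ℕ, Real.exp (-(3 / 2 * LL x))) with hM
  have hM0 : 0 ≤ M := (Real.exp_pos _).le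
  have hCD0 := CD_nonneg hCD
  set K1 : ℝ := M * CD * (((3 * (n ^ 2 - 1)).factorial : ℝ) * Real.exp (5 / 2)) * Real.exp 26 with hK1
  have hK10 : 0 ≤ K1 := by positivity
  set K2 : ℝ := (K1 + 1) / min c0 1 with hK2
  have hmin : 0 < min c0 1 := lt_min hc0 one_pos
  have hK21 : 1 ≤ K2 := by
    rw [hK2, le_div_iff₀ hmin, one_mul]
    exact (min_le_right _ _).trans (by linarith)
  refine ⟨Real.log K2, Real.log_nonneg hK21, fun α μ h hα hμ σ hσ1 hσ2 => ?_⟩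
  let i0 : Fin n := ⟨0, by omega⟩
  obtain ⟨G, hG, hGe⟩ := gdata hn h hμ i0
  -- the bound to the right
  have hle : ∀ x : PS ∅ × ℕ, |d1 (rs α) x| * Real.exp (-(5 / 2 * LL x)) ≤
      ((n : ℝ) ^ 2 + 1) * Real.exp (-(3 / 2 * LL x)) := by
    intro x
    calc _ ≤ ((n : ℝ) ^ 2 + 1) * Real.exp (LL x) * Real.exp (-(5 / 2 * LL x)) :=
          mul_le_mul_of_nonneg_right (d1_abs hα x) (Real.exp_pos _).le
      _ = _ := by
          rw [mul_assoc, ← Real.exp_add]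
          congr 2
          ring
  have hMb : ∀ s : ℂ, 5 / 2 ≤ s.re → ‖G s / DQ s‖ ≤ M := by
    intro s hs
    have hne := hCD.right_ne s hs
    rw [hGe s hs, mul_div_cancel_left₀ _ hne, Complex.norm_exp, hM]
    refine Real.exp_le_exp.2 ?_
    have hs5 : Summable fun x : PS ∅ × ℕ => |d1 (rs α) x| * Real.exp (-(5 / 2 * LL x)) :=
      Summable.of_nonneg_of_le (fun x => by positivity) hle (hw.mul_left _)
    have hle2 : ∀ x : PS ∅ × ℕ, |d1 (rs α) x| * Real.exp (-(s.re * LL x)) ≤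
        ((n : ℝ) ^ 2 + 1) * Real.exp (-(3 / 2 * LL x)) := by
      intro x
      refine le_trans (mul_le_mul_of_nonneg_left (Real.exp_le_exp.2 ?_) (abs_nonneg _)) (hle x)
      have := LL_nonneg x
      nlinarith
    have hs6 : Summable fun x : PS ∅ × ℕ => |d1 (rs α) x| * Real.exp (-(s.re * LL x)) :=
      Summable.of_nonneg_of_le (fun x => by positivity) hle2 (hw.mul_left _)
    have h1 : ‖DS (d1 (rs α)) LL s‖ ≤ ∑' x : PS ∅ × ℕ, |d1 (rs α) x| * Real.exp (-(s.re * LL x)) := by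
      unfold DS
      have h2 := norm_tsum_le_tsum_norm (f := fun x : PS ∅ × ℕ => ((d1 (rs α) x : ℝ) : ℂ) * cexp (-(s * LL x))) (by
        simp_rw [norm_term]
        exact hs6)
      refine h2.trans (le_of_eq (tsum_congr fun x => norm_term _ _ _ _))
    refine (Complex.re_le_norm _).trans (h1.trans ?_)
    rw [← tsum_mul_left]
    exact hs6.tsum_le_tsum hle2 (hw.mul_left _)
  have hcr := crude hG hCD hM0 hMb (z := (σ : ℂ)) (by simp; linarith) (by simp; linarith)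
  rw [gdata_ext h hG hGe (by simpa using hσ1)] at hcr
  have hne1 : (σ : ℂ) ≠ 1 := by
    intro h0
    have : σ = 1 := by exact_mod_cast h0
    linarith
  have e1 : DQ (σ : ℂ) * cexp (DS (d1 (rs α)) LL σ) = σ * (σ - 1) * Gammaℝ σ * cexp ((RL α σ : ℝ) : ℂ) := by
    rw [DQ_eq' (by simp; linarith) hne1, ← logL_real, logL_eq, ← exp_d1 h (by simpa using hσ1)]
    ring
  have e2 : PK (kp μ i0) = ∏ i, ∏ j, (1 + ‖μ i - μ j‖) := by
    rw [prod_all i0 (fun x => 1 + ‖μ x.1 - μ x.2‖)]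
    simp only [sub_self, norm_zero, add_zero, one_mul]
    exact prod_ep i0 (fun x => 1 + ‖μ x.1 - μ x.2‖)
  rw [e1] at hcr
  unfold B1 at hcr
  rw [e2] at hcr
  set P : ℝ := ∏ i, ∏ j, (1 + ‖μ i - μ j‖) with hP
  have hP1 : 1 ≤ P := by
    rw [← e2]
    exact Pool.Agent.TH949.LT.one_le_PK _
  have e3 : ‖(σ : ℂ) * (σ - 1) * Gammaℝ σ * cexp ((RL α σ : ℝ) : ℂ)‖ =
      σ * (σ - 1) * ‖Gammaℝ (σ : ℂ)‖ * Real.exp (RL α σ) := by
    rw [norm_mul, norm_mul, norm_mul, Complex.norm_exp, Complex.ofReal_re, Complex.norm_real,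
      Real.norm_of_nonneg (by linarith)]
    have : ((σ : ℂ) - 1) = ((σ - 1 : ℝ) : ℂ) := by push_cast; ring
    rw [this, Complex.norm_real, Real.norm_of_nonneg (by linarith)]
  rw [e3] at hcr
  have e4 : (σ - 1) * min c0 1 * Real.exp (RL α σ) ≤ P ^ 3 * (K1 + 1) := by
    have h1 : (σ - 1) * min c0 1 * Real.exp (RL α σ) ≤ σ * (σ - 1) * ‖Gammaℝ (σ : ℂ)‖ * Real.exp (RL α σ) := by
      refine mul_le_mul_of_nonneg_right ?_ (Real.exp_pos _).le
      have h2 : min c0 1 ≤ ‖Gammaℝ (σ : ℂ)‖ := (min_le_left _ _).trans (hc σ hσ1.le hσ2)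
      calc (σ - 1) * min c0 1 ≤ (σ - 1) * ‖Gammaℝ (σ : ℂ)‖ := mul_le_mul_of_nonneg_left h2 (by linarith)
        _ = 1 * ((σ - 1) * ‖Gammaℝ (σ : ℂ)‖) := by ring
        _ ≤ σ * ((σ - 1) * ‖Gammaℝ (σ : ℂ)‖) :=
            mul_le_mul_of_nonneg_right hσ1.le (mul_nonneg (by linarith) (norm_nonneg _))
        _ = _ := by ring
    refine h1.trans (hcr.trans ?_)
    have h3 : |((σ : ℂ)).im| = 0 := by simp
    rw [h3, one_pow, one_mul, mul_zero, add_zero]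
    calc P ^ 3 * (M * CD * (((3 * (n ^ 2 - 1)).factorial : ℝ) * Real.exp (5 / 2))) * Real.exp 26 =
        P ^ 3 * K1 := by rw [hK1]; ring
      _ ≤ P ^ 3 * (K1 + 1) := mul_le_mul_of_nonneg_left (by linarith) (by positivity)
  have e5 : Real.exp (RL α σ) ≤ (1 / (σ - 1)) * P ^ 3 * K2 := by
    rw [hK2]
    have h1 : (1 / (σ - 1)) * P ^ 3 * ((K1 + 1) / min c0 1) = P ^ 3 * (K1 + 1) / ((σ - 1) * min c0 1) := by
      have : σ - 1 ≠ 0 := by linarith
      field_simp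
    rw [h1, le_div_iff₀ (mul_pos (by linarith) hmin)]
    linarith
  have h6 : 0 < 1 / (σ - 1) := by
    have : 0 < σ - 1 := by linarith
    positivity
  have h7 := Real.log_le_log (Real.exp_pos _) e5
  rw [Real.log_exp, Real.log_mul (by positivity) (by positivity), Real.log_mul h6.ne' (by positivity),
    Real.log_pow] at h7
  push_cast at h7
  exact h7

end Pool.Agent.H424.QR
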