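import Pool.Agent.H424.QR.Pow
import Pool.Agent.H424.QR.Edge
import Pool.Agent.Erdos456.Mertens

/-! Bounds towards the Ramanujan conjecture at almost all primes, uniform in the form. -/

set_option autoImplicit false

namespace Pool.Agent.H424.QR

open Filter Topology Finset
open Pool.Agent.TH949.RES (SphericalCuspForm)

variable {n : ℕ} {α : Nat.Primes → Fin n → ℂ} {μ : Fin n → ℂ}

/-- `θ_{φ,p} = max_i |log_p |α_{i,p}||` -/
noncomputable def theta (α : Nat.Primes → Fin n → ℂ) (p : Nat.Primes) : ℝ :=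
  ⨆ i, |Real.logb ((p : ℕ) : ℝ) ‖α p i‖|

/-- the maximum is attained by a parameter of absolute value `p^θ` -/
theorem theta_spec (hn : 2 ≤ n) (h : SphericalCuspForm α μ) (p : Nat.Primes) :
    0 ≤ theta α p ∧ ∃ i, ‖α p i‖ = ((p : ℕ) : ℝ) ^ theta α p := by
  have hne : Nonempty (Fin n) := ⟨⟨0, by omega⟩⟩
  have hp1 : (1 : ℝ) < ((p : ℕ) : ℝ) := by exact_mod_cast p.2.one_lt
  have hp0 : (0 : ℝ) < ((p : ℕ) : ℝ) := by linarith
  obtain ⟨i, hi⟩ := exists_eq_ciSup_of_finite (f := fun i => |Real.logb ((p : ℕ) : ℝ) ‖α p i‖|)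
  have hθ : theta α p = |Real.logb ((p : ℕ) : ℝ) ‖α p i‖| := hi.symm
  have hpos : 0 < ‖α p i‖ := norm_pos_iff.2 (h.ne_zero p i)
  refine ⟨by rw [hθ]; exact abs_nonneg _, ?_⟩
  rcases le_or_gt 0 (Real.logb ((p : ℕ) : ℝ) ‖α p i‖) with h1 | h1
  · refine ⟨i, ?_⟩
    rw [hθ, abs_of_nonneg h1, Real.rpow_logb hp0 hp1.ne' hpos]
  · obtain ⟨τ, hτ⟩ := h.unitary p
    refine ⟨τ i, ?_⟩
    rw [hτ, norm_inv, Complex.norm_conj, hθ, abs_of_neg h1, Real.rpow_neg hp0.le, Real.rpow_logb hp0 hp1.ne' hpos]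

theorem theta_lt (hn : 2 ≤ n) (h : SphericalCuspForm α μ)
    (hα : ∀ (p : Nat.Primes) i, ‖α p i‖ < ((p : ℕ) : ℝ) ^ (1 / 2 : ℝ)) (p : Nat.Primes) : theta α p < 1 / 2 := by
  obtain ⟨-, i, hi⟩ := theta_spec hn h p
  have hp1 : (1 : ℝ) < ((p : ℕ) : ℝ) := by exact_mod_cast p.2.one_lt
  have h1 := hα p i
  rw [hi] at h1
  exact (Real.rpow_lt_rpow_left_iff hp1).1 h1

/-- the terms of `log L(σ, π × π~)` -/
noncomputable def trm (α : Nat.Primes → Fin n → ℂ) (σ : ℝ) (x : Nat.Primes × ℕ) : ℝ :=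
  ‖∑ i, α x.1 i ^ (x.2 + 1)‖ ^ 2 / ((x.2 : ℝ) + 1) * (((x.1 : ℕ) : ℝ) ^ (-σ)) ^ (x.2 + 1)

theorem trm_nonneg (α : Nat.Primes → Fin n → ℂ) (σ : ℝ) (x : Nat.Primes × ℕ) : 0 ≤ trm α σ x := by
  unfold trm
  positivity

/-- the local inequality -/
theorem loc (hn : 2 ≤ n) (h : SphericalCuspForm α μ)
    (hα : ∀ (p : Nat.Primes) i, ‖α p i‖ < ((p : ℕ) : ℝ) ^ (1 / 2 : ℝ)) (p : Nat.Primes) {x : ℝ}
    (hpx : ((p : ℕ) : ℝ) ≤ x) :
    ((p : ℕ) : ℝ) ^ (-(((n / 2 : ℕ) : ℝ) * (1 - 2 * theta α p))) ≤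
      4 * ((n / 2 : ℕ) : ℝ) ^ 3 * Real.exp ((n / 2 : ℕ) : ℝ) *
        (∑ k ∈ range (n / 2), trm α (1 + 1 / Real.log (3 * x)) (p, k)) +
      (2 * (n : ℝ) * ((n / 2 : ℕ) : ℝ)) ^ (2 * (n / 2)) * (1 / ((p : ℕ) : ℝ)) := by
  have hm : 1 ≤ n / 2 := by omega
  set m : ℕ := n / 2 with hmdef
  have hm' : (1 : ℝ) ≤ (m : ℝ) := by exact_mod_cast hm
  have hn' : (2 : ℝ) ≤ (n : ℝ) := by exact_mod_cast hn
  have hp1 : (1 : ℝ) < ((p : ℕ) : ℝ) := by exact_mod_cast p.2.one_lt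
  have hp0 : (0 : ℝ) < ((p : ℕ) : ℝ) := by linarith
  obtain ⟨hθ0, i0, hi0⟩ := theta_spec hn h p
  have hθ1 := theta_lt hn h hα p
  set θ : ℝ := theta α p with hθ
  set P : ℝ := ((p : ℕ) : ℝ) with hP
  have hsum0 : 0 ≤ ∑ k ∈ range m, trm α (1 + 1 / Real.log (3 * x)) (p, k) :=
    Finset.sum_nonneg fun k _ => trm_nonneg _ _ _
  have hR0 : 0 < P ^ θ := Real.rpow_pos_of_pos hp0 _
  rcases lt_or_ge (P ^ θ) (2 * (n : ℝ) * (m : ℝ)) with hR | hR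
  · have e1 : P ^ (-((m : ℝ) * (1 - 2 * θ))) = (P ^ θ) ^ (2 * m) * P ^ (-(m : ℝ)) := by
      rw [← Real.rpow_natCast (P ^ θ), ← Real.rpow_mul hp0.le, ← Real.rpow_add hp0]
      congr 1
      push_cast
      ring
    have e2 : P ^ (-(m : ℝ)) ≤ 1 / P := by
      rw [one_div, ← Real.rpow_neg_one]
      exact Real.rpow_le_rpow_of_exponent_le hp1.le (by linarith)
    rw [e1]
    have e3 : (P ^ θ) ^ (2 * m) ≤ (2 * (n : ℝ) * (m : ℝ)) ^ (2 * m) := pow_le_pow_left₀ hR0.le hR.le _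
    have e4 : (P ^ θ) ^ (2 * m) * P ^ (-(m : ℝ)) ≤ (2 * (n : ℝ) * (m : ℝ)) ^ (2 * m) * (1 / P) :=
      mul_le_mul e3 e2 (Real.rpow_pos_of_pos hp0 _).le (by positivity)
    have e5 : 0 ≤ 4 * (m : ℝ) ^ 3 * Real.exp (m : ℝ) *
        (∑ k ∈ range m, trm α (1 + 1 / Real.log (3 * x)) (p, k)) := by positivity
    linarith
  · have hRi : 2 * (n : ℝ) * ((n / 2 : ℕ) : ℝ) ≤ ‖α p i0‖ := by rw [hi0]; exact hR
    have hR1 : 1 < ‖α p i0‖ := by
      rw [hi0]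
      have : (4 : ℝ) ≤ 2 * (n : ℝ) * (m : ℝ) := by nlinarith
      linarith
    obtain ⟨k, hk1, hk2, hk3⟩ := big_trace (h.unitary p) hR1 hRi
    rw [← hmdef] at hk2 hk3
    rw [hi0] at hk3
    have hkm : (k : ℝ) ≤ (m : ℝ) := by exact_mod_cast hk2
    have hk1' : (1 : ℝ) ≤ (k : ℝ) := by exact_mod_cast hk1
    have hx3 : 1 < 3 * x := by nlinarith
    have hlog3 : 0 < Real.log (3 * x) := Real.log_pos hx3
    have hlogp : Real.log P ≤ Real.log (3 * x) := Real.log_le_log hp0 (by linarith)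
    -- the term
    have e1 : trm α (1 + 1 / Real.log (3 * x)) (p, k - 1) ≤
        ∑ k ∈ range m, trm α (1 + 1 / Real.log (3 * x)) (p, k) :=
      single_le_sum (f := fun k => trm α (1 + 1 / Real.log (3 * x)) (p, k)) (fun j _ => trm_nonneg _ _ _)
        (mem_range.2 (by omega))
    have e2 : trm α (1 + 1 / Real.log (3 * x)) (p, k - 1) =
        ‖∑ i, α p i ^ k‖ ^ 2 / (k : ℝ) * P ^ (-((1 + 1 / Real.log (3 * x)) * k)) := by
      unfold trm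
      simp only
      have h1 : k - 1 + 1 = k := by omega
      have h2 : (((k - 1 : ℕ) : ℝ) + 1) = (k : ℝ) := by
        have h3 : (((k - 1 + 1 : ℕ)) : ℝ) = (k : ℝ) := by rw [h1]
        push_cast at h3
        exact h3
      rw [h1, h2, ← Real.rpow_natCast (P ^ (-(1 + 1 / Real.log (3 * x)))) k, ← Real.rpow_mul hp0.le]
      congr 2
      ring
    have e3 : Real.exp (-(m : ℝ)) * P ^ (-(k : ℝ)) ≤ P ^ (-((1 + 1 / Real.log (3 * x)) * k)) := by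
      rw [Real.rpow_def_of_pos hp0, Real.rpow_def_of_pos hp0, ← Real.exp_add]
      refine Real.exp_le_exp.2 ?_
      have h1 : Real.log P / Real.log (3 * x) ≤ 1 := (div_le_one hlog3).2 hlogp
      have h2 : Real.log P / Real.log (3 * x) * k ≤ 1 * m :=
        mul_le_mul h1 hkm (by linarith) zero_le_one
      have h3 : Real.log P * -((1 + 1 / Real.log (3 * x)) * k) =
          Real.log P * -(k : ℝ) - Real.log P / Real.log (3 * x) * k := by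
        field_simp
        ring
      rw [h3]
      linarith
    have e4 : ((P ^ θ) ^ k / (2 * (m : ℝ))) ^ 2 ≤ ‖∑ i, α p i ^ k‖ ^ 2 :=
      pow_le_pow_left₀ (by positivity) hk3 2
    have e5 : ((P ^ θ) ^ k / (2 * (m : ℝ))) ^ 2 = P ^ (2 * θ * k) / (4 * (m : ℝ) ^ 2) := by
      rw [div_pow, ← pow_mul, ← Real.rpow_natCast (P ^ θ), ← Real.rpow_mul hp0.le]
      congr 1
      · congr 1
        push_cast
        ring
      · ring
    rw [e5] at e4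
    have e6 : P ^ (-((m : ℝ) * (1 - 2 * θ))) ≤ P ^ (2 * θ * k) * P ^ (-(k : ℝ)) := by
      rw [← Real.rpow_add hp0]
      refine Real.rpow_le_rpow_of_exponent_le hp1.le ?_
      nlinarith
    have e7 : P ^ (2 * θ * k) / (4 * (m : ℝ) ^ 2) / (m : ℝ) * (Real.exp (-(m : ℝ)) * P ^ (-(k : ℝ))) ≤
        ‖∑ i, α p i ^ k‖ ^ 2 / (k : ℝ) * P ^ (-((1 + 1 / Real.log (3 * x)) * k)) := by
      gcongr
    have e8 : 4 * (m : ℝ) ^ 3 * Real.exp (m : ℝ) *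
        (P ^ (2 * θ * k) / (4 * (m : ℝ) ^ 2) / (m : ℝ) * (Real.exp (-(m : ℝ)) * P ^ (-(k : ℝ)))) =
        P ^ (2 * θ * k) * P ^ (-(k : ℝ)) := by
      rw [Real.exp_neg]
      have := Real.exp_pos (m : ℝ)
      field_simp
    have e9 : 0 ≤ (2 * (n : ℝ) * (m : ℝ)) ^ (2 * m) * (1 / P) := by positivity
    have e10 : 4 * (m : ℝ) ^ 3 * Real.exp (m : ℝ) *
        (P ^ (2 * θ * k) / (4 * (m : ℝ) ^ 2) / (m : ℝ) * (Real.exp (-(m : ℝ)) * P ^ (-(k : ℝ)))) ≤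
        4 * (m : ℝ) ^ 3 * Real.exp (m : ℝ) *
        (∑ k ∈ range m, trm α (1 + 1 / Real.log (3 * x)) (p, k)) := by
      refine mul_le_mul_of_nonneg_left ?_ (by positivity)
      rw [← e2] at e7
      exact e7.trans e1
    rw [e8] at e10
    linarith

theorem prim_fin (x : ℝ) : {p : Nat.Primes | ((p : ℕ) : ℝ) ≤ x}.Finite :=
  (Pool.Agent.TH949.RES.primes_finite ⌊x⌋₊).subset fun _ hp => Nat.le_floor hp

theorem inv_sum : ∃ C : ℝ, 0 ≤ C ∧ ∀ x : ℝ, 2 ≤ x →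
    ∑ p ∈ (prim_fin x).toFinset, (1 : ℝ) / ((p : ℕ) : ℝ) ≤ Real.log (Real.log (3 * x)) + C := by
  obtain ⟨C, hC⟩ := Pool.Agent.Erdos456.Mert.mertens_inv
  refine ⟨|C|, abs_nonneg _, fun x hx => ?_⟩
  have hN : 3 ≤ ⌊3 * x⌋₊ := Nat.le_floor (by push_cast; linarith)
  have h1 := (abs_le.1 (hC _ hN)).2
  have h2 : ∑ p ∈ (prim_fin x).toFinset, (1 : ℝ) / ((p : ℕ) : ℝ) ≤
      ∑ p ∈ (Finset.Icc 1 ⌊3 * x⌋₊).filter Nat.Prime, (1 : ℝ) / p := by
    classical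
    rw [← Finset.sum_image (s := (prim_fin x).toFinset) (g := fun p : Nat.Primes => (p : ℕ))
      (f := fun q : ℕ => (1 : ℝ) / (q : ℝ)) (fun a _ b _ hab => Subtype.ext hab)]
    refine Finset.sum_le_sum_of_subset_of_nonneg (fun q hq => ?_) fun _ _ _ => by positivity
    rw [Finset.mem_image] at hq
    obtain ⟨p, hp, rfl⟩ := hq
    rw [Set.Finite.mem_toFinset] at hp
    have hp' : ((p : ℕ) : ℝ) ≤ x := hp
    rw [Finset.mem_filter, Finset.mem_Icc]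
    exact ⟨⟨p.2.one_lt.le, Nat.le_floor (by linarith)⟩, p.2⟩
  have h3 : Real.log (Real.log (⌊3 * x⌋₊ : ℝ)) ≤ Real.log (Real.log (3 * x)) := by
    have h4 : (3 : ℝ) ≤ (⌊3 * x⌋₊ : ℝ) := by exact_mod_cast hN
    refine Real.log_le_log (Real.log_pos (by linarith)) ?_
    exact Real.log_le_log (by linarith) (Nat.floor_le (by linarith))
  have := le_abs_self C
  linarith

theorem one_le_Q {n : ℕ} (μ : Fin n → ℂ) : 1 ≤ ∏ i, ∏ j, (1 + ‖μ i - μ j‖) := by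
  have h1 : ∀ i, 1 ≤ ∏ j, (1 + ‖μ i - μ j‖) := by
    intro i
    calc (1 : ℝ) = ∏ _j : Fin n, (1 : ℝ) := by simp
      _ ≤ _ := Finset.prod_le_prod (fun _ _ => zero_le_one) fun j _ => by linarith [norm_nonneg (μ i - μ j)]
  calc (1 : ℝ) = ∏ _i : Fin n, (1 : ℝ) := by simp
    _ ≤ _ := Finset.prod_le_prod (fun _ _ => zero_le_one) fun i _ => h1 i

/-- **The weighted sum of the primes.** -/
theorem main (hn : 2 ≤ n) : ∃ A : ℝ, 0 < A ∧ ∀ (α : Nat.Primes → Fin n → ℂ) (μ : Fin n → ℂ),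
    SphericalCuspForm α μ → (∀ (p : Nat.Primes) i, ‖α p i‖ < ((p : ℕ) : ℝ) ^ (1 / 2 : ℝ)) →
    (∀ i, |(μ i).re| < 1 / 2) → ∀ x : ℝ, 2 ≤ x →
    ∑ p ∈ (prim_fin x).toFinset, ((p : ℕ) : ℝ) ^ (-(((n / 2 : ℕ) : ℝ) * (1 - 2 * theta α p))) ≤
      A * (Real.log (2 * ∏ i, ∏ j, (1 + ‖μ i - μ j‖)) + Real.log (Real.log (3 * x))) := by
  obtain ⟨K, hK0, hK⟩ := edge hn
  obtain ⟨C, hC0, hC⟩ := inv_sum
  set m : ℕ := n / 2 with hmdef
  have hm : 1 ≤ m := by omega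
  set D1 : ℝ := 4 * (m : ℝ) ^ 3 * Real.exp (m : ℝ) with hD1
  set D2 : ℝ := (2 * (n : ℝ) * (m : ℝ)) ^ (2 * m) with hD2
  have hD10 : 0 < D1 := by
    have : (0 : ℝ) < m := by exact_mod_cast hm
    positivity
  have hD20 : 0 ≤ D2 := by positivity
  refine ⟨D1 * (4 + 2 * K) + D2 * (1 + 2 * C), by positivity, fun α μ h hα hμ x hx => ?_⟩
  set Q : ℝ := ∏ i, ∏ j, (1 + ‖μ i - μ j‖) with hQ
  have hQ1 : 1 ≤ Q := one_le_Q μ
  have hlog6 : 1 < Real.log (3 * x) := by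
    rw [Real.lt_log_iff_exp_lt (by linarith)]
    have := Real.exp_one_lt_d9
    linarith
  have hLL : 0 ≤ Real.log (Real.log (3 * x)) := Real.log_nonneg hlog6.le
  have hσ1 : 1 < 1 + 1 / Real.log (3 * x) := by
    have : 0 < 1 / Real.log (3 * x) := by positivity
    linarith
  have hσ2 : 1 + 1 / Real.log (3 * x) ≤ 2 := by
    have : 1 / Real.log (3 * x) ≤ 1 := by
      rw [div_le_one (by linarith)]
      exact hlog6.le
    linarith
  have hRL := hK α μ h hα hμ _ hσ1 hσ2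
  have e0 : 1 / (1 + 1 / Real.log (3 * x) - 1) = Real.log (3 * x) := by
    have : Real.log (3 * x) ≠ 0 := by linarith
    field_simp
    ring
  rw [e0, ← hQ] at hRL
  have hs : Summable (trm α (1 + 1 / Real.log (3 * x))) := h.summable _ hσ1
  have e1 : ∑ p ∈ (prim_fin x).toFinset, ∑ k ∈ range m, trm α (1 + 1 / Real.log (3 * x)) (p, k) ≤
      RL α (1 + 1 / Real.log (3 * x)) := by
    rw [← Finset.sum_product' (prim_fin x).toFinset (range m) fun p k => trm α (1 + 1 / Real.log (3 * x)) (p, k)]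
    exact hs.sum_le_tsum _ fun y _ => trm_nonneg _ _ _
  have e2 : ∑ p ∈ (prim_fin x).toFinset, ((p : ℕ) : ℝ) ^ (-((m : ℝ) * (1 - 2 * theta α p))) ≤
      D1 * (∑ p ∈ (prim_fin x).toFinset, ∑ k ∈ range m, trm α (1 + 1 / Real.log (3 * x)) (p, k)) +
      D2 * ∑ p ∈ (prim_fin x).toFinset, (1 : ℝ) / ((p : ℕ) : ℝ) := by
    rw [Finset.mul_sum, Finset.mul_sum, ← Finset.sum_add_distrib]
    refine Finset.sum_le_sum fun p hp => ?_
    rw [Set.Finite.mem_toFinset] at hp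
    exact loc hn h hα p hp
  have e3 := hC x hx
  have hl2 : (1 : ℝ) / 2 ≤ Real.log 2 := by
    have := Real.log_two_gt_d9
    linarith
  have hlQ : Real.log (2 * Q) = Real.log 2 + Real.log Q := Real.log_mul (by norm_num) (by linarith)
  have hlQ0 : 0 ≤ Real.log Q := Real.log_nonneg hQ1
  have e4 : D1 * (∑ p ∈ (prim_fin x).toFinset, ∑ k ∈ range m, trm α (1 + 1 / Real.log (3 * x)) (p, k)) ≤
      D1 * ((4 + 2 * K) * (Real.log (2 * Q) + Real.log (Real.log (3 * x)))) := by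
    refine mul_le_mul_of_nonneg_left (e1.trans (hRL.trans ?_)) hD10.le
    rw [hlQ]
    nlinarith
  have e5 : D2 * ∑ p ∈ (prim_fin x).toFinset, (1 : ℝ) / ((p : ℕ) : ℝ) ≤
      D2 * ((1 + 2 * C) * (Real.log (2 * Q) + Real.log (Real.log (3 * x)))) := by
    refine mul_le_mul_of_nonneg_left (e3.trans ?_) hD20
    rw [hlQ]
    nlinarith
  calc _ ≤ _ := e2
    _ ≤ D1 * ((4 + 2 * K) * (Real.log (2 * Q) + Real.log (Real.log (3 * x)))) +
        D2 * ((1 + 2 * C) * (Real.log (2 * Q) + Real.log (Real.log (3 * x)))) := add_le_add e4 e5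
    _ = _ := by ring

end Pool.Agent.H424.QR
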