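import Mathlib

/-! Power sums: if one of `N` complex numbers has absolute value `R`, then one of the first `N` power sums is at least
`R^k / N`. -/

set_option autoImplicit false

namespace Pool.Agent.H424.QR

open Finset

section newton

variable {σ : Type*} [Fintype σ]

/-- elementary symmetric functions -/
noncomputable def es (z : σ → ℂ) (k : ℕ) : ℂ := MvPolynomial.aeval z (MvPolynomial.esymm σ ℂ k)

theorem es_newton (z : σ → ℂ) (k : ℕ) :
    (k : ℂ) * es z k = (-1) ^ (k + 1) *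
      ∑ a ∈ antidiagonal k with a.1 < k, (-1) ^ a.1 * es z a.1 * ∑ i, z i ^ a.2 := by
  have h := congrArg (MvPolynomial.aeval z) (MvPolynomial.mul_esymm_eq_sum σ ℂ k)
  simpa [es, MvPolynomial.psum, map_sum] using h

theorem es_zero (z : σ → ℂ) : es z 0 = 1 := by
  simp [es]

theorem es_small (z : σ → ℂ) {ε : ℝ} (hε0 : 0 ≤ ε) (hε : ε ≤ 1) {m : ℕ}
    (h : ∀ k, 1 ≤ k → k ≤ m → ‖∑ i, z i ^ k‖ ≤ ε) : ∀ k, 1 ≤ k → k ≤ m → ‖es z k‖ ≤ ε := by
  intro k
  induction k using Nat.strong_induction_on with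
  | _ k ih =>
    intro h1 h2
    have e1 := es_newton z k
    have e2 : (k : ℝ) * ‖es z k‖ ≤ ∑ a ∈ antidiagonal k with a.1 < k, ε := by
      have e3 := congrArg norm e1
      rw [norm_mul, norm_mul, norm_pow, norm_neg, norm_one, one_pow, one_mul, Complex.norm_natCast] at e3
      rw [e3]
      refine norm_sum_le_of_le _ fun a ha => ?_
      rw [mem_filter, HasAntidiagonal.mem_antidiagonal] at ha
      obtain ⟨ha1, ha2⟩ := ha
      rw [norm_mul, norm_mul, norm_pow, norm_neg, norm_one, one_pow, one_mul]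
      have h3 := h a.2 (by omega) (by omega)
      rcases Nat.eq_zero_or_pos a.1 with h0 | h0
      · rw [h0, es_zero, norm_one, one_mul]
        exact h3
      · have h4 := ih a.1 ha2 h0 (by omega)
        calc ‖es z a.1‖ * ‖∑ i, z i ^ a.2‖ ≤ ε * ε := mul_le_mul h4 h3 (norm_nonneg _) hε0
          _ ≤ ε * 1 := mul_le_mul_of_nonneg_left hε hε0
          _ = ε := mul_one ε
    have e4 : (#{a ∈ antidiagonal k | a.1 < k} : ℝ) ≤ k := by
      have h5 : #{a ∈ antidiagonal k | a.1 < k} ≤ #(range k) := by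
        refine card_le_card_of_injOn (fun a => a.1) (fun a ha => ?_) fun a ha b hb hab => ?_
        · simp only [coe_filter, HasAntidiagonal.mem_antidiagonal, Set.mem_ofPred_eq] at ha
          simpa using ha.2
        · simp only [coe_filter, HasAntidiagonal.mem_antidiagonal, Set.mem_ofPred_eq] at ha hb
          simp only at hab
          refine Prod.ext hab ?_
          omega
      rw [card_range] at h5
      exact_mod_cast h5
    rw [sum_const, nsmul_eq_mul] at e2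
    have hk : (0 : ℝ) < k := by exact_mod_cast h1
    have e5 : (k : ℝ) * ‖es z k‖ ≤ k * ε := e2.trans (mul_le_mul_of_nonneg_right e4 hε0)
    exact le_of_mul_le_mul_left e5 hk

theorem es_root (z : σ → ℂ) (i0 : σ) :
    ∑ j ∈ range (Fintype.card σ + 1), (-1) ^ j * (es z j * z i0 ^ (Fintype.card σ - j)) = 0 := by
  classical
  have h := congrArg (Polynomial.eval (z i0))
    (Multiset.prod_X_sub_X_eq_sum_esymm (Multiset.map z (Finset.univ : Finset σ).val))
  rw [Polynomial.eval_finsetSum] at h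
  have h0 : Polynomial.eval (z i0)
      (Multiset.map (fun t => Polynomial.X - Polynomial.C t) (Multiset.map z (Finset.univ : Finset σ).val)).prod = 0 := by
    rw [Multiset.map_map]
    have h1 : (Multiset.map ((fun t => Polynomial.X - Polynomial.C t) ∘ z) (Finset.univ : Finset σ).val).prod =
        ∏ i, (Polynomial.X - Polynomial.C (z i)) := rfl
    rw [h1, Polynomial.eval_prod]
    exact Finset.prod_eq_zero (Finset.mem_univ i0) (by simp)
  rw [h0] at h
  simp only [Multiset.card_map, Finset.card_val, Finset.card_univ] at h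
  rw [eq_comm] at h
  refine Eq.trans (Finset.sum_congr rfl fun j _ => ?_) h
  simp [es, MvPolynomial.aeval_esymm_eq_multiset_esymm]

/-- one of the first `N` power sums of `N` numbers, one of them of absolute value `1`, is at least `1 / N` -/
theorem pow_sum (z : σ → ℂ) {i0 : σ} (h1 : ‖z i0‖ = 1) :
    ∃ k, 1 ≤ k ∧ k ≤ Fintype.card σ ∧ 1 / (Fintype.card σ : ℝ) ≤ ‖∑ i, z i ^ k‖ := by
  have hN : 1 ≤ Fintype.card σ := Fintype.card_pos_iff.2 ⟨i0⟩
  have hN' : (1 : ℝ) ≤ Fintype.card σ := by exact_mod_cast hN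
  by_contra hcon
  push Not at hcon
  obtain ⟨k0, hk0, hmax⟩ := exists_max_image (Icc 1 (Fintype.card σ)) (fun k => ‖∑ i, z i ^ k‖)
    ⟨1, mem_Icc.2 ⟨le_rfl, hN⟩⟩
  rw [mem_Icc] at hk0
  set ε : ℝ := ‖∑ i, z i ^ k0‖ with hε
  have hε1 : ε < 1 / (Fintype.card σ : ℝ) := hcon k0 hk0.1 hk0.2
  have hε0 : 0 ≤ ε := norm_nonneg _
  have hε2 : ε ≤ 1 := hε1.le.trans (by rw [div_le_one (by linarith)]; exact hN')
  have h2 := es_small z hε0 hε2 (m := Fintype.card σ) fun k h3 h4 => hmax k (mem_Icc.2 ⟨h3, h4⟩)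
  have h3 := es_root z i0
  rw [sum_range_succ'] at h3
  simp only [pow_zero, es_zero, one_mul, Nat.sub_zero] at h3
  have h4 : ‖z i0 ^ Fintype.card σ‖ ≤ ∑ j ∈ range (Fintype.card σ), ε := by
    rw [eq_neg_of_add_eq_zero_right h3, norm_neg]
    refine norm_sum_le_of_le _ fun j hj => ?_
    rw [mem_range] at hj
    rw [norm_mul, norm_mul, norm_pow, norm_pow, norm_neg, norm_one, one_pow, one_mul, h1, one_pow, mul_one]
    exact h2 (j + 1) (by omega) (by omega)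
  rw [norm_pow, h1, one_pow, sum_const, card_range, nsmul_eq_mul] at h4
  have h5 : (Fintype.card σ : ℝ) * ε < 1 := by
    rw [lt_div_iff₀ (by linarith)] at hε1
    linarith
  linarith

/-- the scaled version -/
theorem pow_sum' (z : σ → ℂ) {i0 : σ} (h0 : 0 < ‖z i0‖) :
    ∃ k, 1 ≤ k ∧ k ≤ Fintype.card σ ∧ ‖z i0‖ ^ k / (Fintype.card σ : ℝ) ≤ ‖∑ i, z i ^ k‖ := by
  set R : ℝ := ‖z i0‖ with hR
  have hRc : (R : ℂ) ≠ 0 := by exact_mod_cast h0.ne'
  obtain ⟨k, h1, h2, h3⟩ := pow_sum (fun i => z i / R) (i0 := i0) (by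
    rw [norm_div, Complex.norm_real, Real.norm_of_nonneg h0.le, ← hR, div_self h0.ne'])
  refine ⟨k, h1, h2, ?_⟩
  have e1 : ∑ i, (z i / R) ^ k = (∑ i, z i ^ k) / (R : ℂ) ^ k := by
    rw [sum_div]
    exact sum_congr rfl fun i _ => div_pow _ _ _
  rw [e1, norm_div, norm_pow, Complex.norm_real, Real.norm_of_nonneg h0.le, le_div_iff₀ (by positivity)] at h3
  calc R ^ k / (Fintype.card σ : ℝ) = 1 / (Fintype.card σ : ℝ) * R ^ k := by ring
    _ ≤ _ := h3

end newton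

section unitary

variable {n : ℕ}

/-- at most half of the parameters lie outside the unit circle -/
theorem card_big {a : Fin n → ℂ} (hτ : ∃ τ : Equiv.Perm (Fin n), ∀ i,
    a (τ i) = ((starRingEnd ℂ) (a i))⁻¹) : Fintype.card {i // 1 < ‖a i‖} ≤ n / 2 := by
  classical
  obtain ⟨τ, hτ⟩ := hτ
  have hn : ∀ i, ‖a (τ i)‖ = ‖a i‖⁻¹ := by
    intro i
    rw [hτ, norm_inv, Complex.norm_conj]
  have h1 : Fintype.card {i // 1 < ‖a i‖} = #(univ.filter fun i => 1 < ‖a i‖) := Fintype.card_subtype _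
  have h2 : #(univ.filter fun i => 1 < ‖a i‖) ≤ #(univ.filter fun i => ‖a i‖ < 1) := by
    refine card_le_card_of_injOn τ (fun i hi => ?_) (τ.injective.injOn)
    simp only [coe_filter, mem_univ, true_and, Set.mem_ofPred_eq] at hi ⊢
    rw [hn]
    exact inv_lt_one_of_one_lt₀ hi
  have h3 : Disjoint (univ.filter fun i => 1 < ‖a i‖) (univ.filter fun i => ‖a i‖ < 1) := by
    rw [disjoint_filter]
    intro i _ h4 h5
    linarith
  have h4 : #(univ.filter fun i => 1 < ‖a i‖) + #(univ.filter fun i => ‖a i‖ < 1) ≤ n := by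
    rw [← card_union_of_disjoint h3]
    refine (card_le_univ _).trans ?_
    simp
  rw [h1, Nat.le_div_iff_mul_le (by norm_num)]
  omega

/-- **a large parameter forces a large power sum of small order** -/
theorem big_trace {a : Fin n → ℂ} (hτ : ∃ τ : Equiv.Perm (Fin n), ∀ i,
    a (τ i) = ((starRingEnd ℂ) (a i))⁻¹) {i0 : Fin n} (h1 : 1 < ‖a i0‖)
    (h2 : 2 * (n : ℝ) * ((n / 2 : ℕ) : ℝ) ≤ ‖a i0‖) :
    ∃ k, 1 ≤ k ∧ k ≤ n / 2 ∧ ‖a i0‖ ^ k / (2 * ((n / 2 : ℕ) : ℝ)) ≤ ‖∑ i, a i ^ k‖ := by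
  classical
  have hc := card_big hτ
  obtain ⟨k, k1, k2, k3⟩ := pow_sum' (fun i : {i // 1 < ‖a i‖} => a i.1) (i0 := ⟨i0, h1⟩) (by
    simp only
    linarith)
  simp only at k3
  have hN : 1 ≤ Fintype.card {i // 1 < ‖a i‖} := k1.trans k2
  have hN' : (1 : ℝ) ≤ (Fintype.card {i // 1 < ‖a i‖} : ℝ) := by exact_mod_cast hN
  have hc' : (Fintype.card {i // 1 < ‖a i‖} : ℝ) ≤ ((n / 2 : ℕ) : ℝ) := by exact_mod_cast hc
  have hm : (1 : ℝ) ≤ ((n / 2 : ℕ) : ℝ) := hN'.trans hc'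
  refine ⟨k, k1, k2.trans hc, ?_⟩
  set R : ℝ := ‖a i0‖ with hR
  have e1 : ∑ i, a i ^ k = (∑ i : {i // 1 < ‖a i‖}, a i.1 ^ k) + ∑ i : {i // ¬ 1 < ‖a i‖}, a i.1 ^ k := by
    rw [← Fintype.sum_subtype_add_sum_subtype (fun i => 1 < ‖a i‖)]
  have e2 : ‖∑ i : {i // ¬ 1 < ‖a i‖}, a i.1 ^ k‖ ≤ n := by
    refine (norm_sum_le_of_le _ (f := fun i : {i // ¬ 1 < ‖a i‖} => a i.1 ^ k) (n := fun _ => (1 : ℝ)) fun i _ => ?_).trans ?_
    · rw [norm_pow]
      exact pow_le_one₀ (norm_nonneg _) (not_lt.1 i.2)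
    · rw [sum_const, card_univ, nsmul_eq_mul, mul_one]
      have : Fintype.card {i // ¬ 1 < ‖a i‖} ≤ n := (Fintype.card_subtype_le _).trans (by simp)
      exact_mod_cast this
  have e3 : R ^ k / ((n / 2 : ℕ) : ℝ) ≤ ‖∑ i : {i // 1 < ‖a i‖}, a i.1 ^ k‖ := by
    refine le_trans ?_ k3
    gcongr
  have e4 : R ≤ R ^ k := le_self_pow₀ h1.le (by omega)
  have e5 : (n : ℝ) ≤ R ^ k / (2 * ((n / 2 : ℕ) : ℝ)) := by
    rw [le_div_iff₀ (by linarith)]
    calc (n : ℝ) * (2 * ((n / 2 : ℕ) : ℝ)) = 2 * (n : ℝ) * ((n / 2 : ℕ) : ℝ) := by ring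
      _ ≤ R := h2
      _ ≤ _ := e4
  have e6 : R ^ k / ((n / 2 : ℕ) : ℝ) = R ^ k / (2 * ((n / 2 : ℕ) : ℝ)) + R ^ k / (2 * ((n / 2 : ℕ) : ℝ)) := by
    field_simp
    ring
  have e7 : ‖∑ i : {i // 1 < ‖a i‖}, a i.1 ^ k‖ ≤ ‖∑ i, a i ^ k‖ + ‖∑ i : {i // ¬ 1 < ‖a i‖}, a i.1 ^ k‖ := by
    rw [e1]
    have := norm_sub_le ((∑ i : {i // 1 < ‖a i‖}, a i.1 ^ k) + ∑ i : {i // ¬ 1 < ‖a i‖}, a i.1 ^ k)
      (∑ i : {i // ¬ 1 < ‖a i‖}, a i.1 ^ k)
    rwa [add_sub_cancel_right] at this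
  linarith

end unitary

end Pool.Agent.H424.QR
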